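import Mathlib
import Pool.Agent.PatSturm.Final

/-!
# Classification of the pattern Sturmian sequences

All recurrent single-sided and all recurrent double-sided pattern Sturmian sequences. The notions
used in the statement are defined in `Pool.Agent.PatSturm.Statement`.
-/

set_option autoImplicit false

namespace Pool.Agent.Results.MP_2825c1_co.Classification

open Pool.Agent.PatSturm.Statement Pool.Agent.PatSturm.Final
open Pool.Agent.Helper434 Pool.Agent.Helper434.PCDefs Pool.Agent.Helper434.PCCore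
  Pool.Agent.Helper434.PCFin

lemma range_two {I A : Type} {x : I → A} {a b : I} (hab : x a ≠ x b)
    (h : (Set.range fun m : I => fun _ : Fin 1 => x m).encard ≤ 2) :
    (Set.range fun m : I => fun _ : Fin 1 => x m).encard = 2 := by
  apply le_antisymm h
  have h1 : ({fun _ => x a, fun _ => x b} : Set (Fin 1 → A)).encard = 2 := by
    apply Set.encard_pair
    intro h
    exact hab (congrFun h 0)
  rw [← h1]
  apply Set.encard_le_encard
  rintro f (rfl | rfl)
  · exact ⟨a, rfl⟩
  · exact ⟨b, rfl⟩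

/-- double-sided sequences of low pattern complexity without period -/
theorem low_two {A : Type} (x : ℤ → A) (hr : Recurrent x)
    (ha : ∀ q : ℤ, q ≠ 0 → ∃ m, x (m + q) ≠ x m)
    (hp : ∀ n : ℕ, 1 ≤ n → patternComplexity x n ≤ 2 * n) :
    ∃ (p q : A) (X : ℤ → Bool), p ≠ q ∧ (IntervalCoding X ∨ ArcToeplitz X) ∧
      ∀ m : ℤ, x m = if X m = true then p else q := by
  classical
  obtain ⟨m₀, hm₀⟩ := ha 1 one_ne_zero
  have h1 := hp 1 le_rfl
  have h2 : (Set.range fun m : ℤ => fun _ : Fin 1 => x m).encard = 2 := by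
    apply range_two hm₀
    refine le_trans ?_ (by simpa using h1)
    unfold patternComplexity
    refine le_trans ?_ (le_iSup (fun τ : {τ : Fin 1 → ℕ // StrictMono τ ∧
      ∀ h : 0 < 1, τ ⟨0, h⟩ = 0} => (Set.range fun m : ℤ => fun i : Fin 1 =>
        x (m + τ.1 i)).encard) ⟨fun _ => 0, Subsingleton.strictMono _, fun _ => rfl⟩)
    simp
  obtain ⟨p, q, hpq, hx⟩ := two_letters h2
  have hX : ∀ n, x n = if (fun m => decide (x m = p)) n = true then p else q := by
    intro n
    by_cases h : x n = p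
    · simp [h]
    · rcases hx n with h3 | h3
      · exact absurd h3 h
      · simp [h3, hpq.symm]
  refine ⟨p, q, fun m => decide (x m = p), hpq, ?_, hX⟩
  set X : ℤ → Bool := fun m => decide (x m = p)
  have hr' : Recurrent X := (rec_two_iff hpq hX).mp hr
  have hp' : ∀ n : ℕ, 1 ≤ n → patternComplexity X n ≤ 2 * n := fun n hn => by
    rw [← pc_two_eq hpq hX]; exact hp n hn
  have ha' : ∀ q : ℤ, q ≠ 0 → ∃ m, X (m + q) ≠ X m := by
    intro r hr0
    obtain ⟨m, hm⟩ := ha r hr0
    refine ⟨m, fun h => hm ?_⟩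
    rw [hX (m + r), hX m]
    simp only [h]
  have hb : Bdd X := PCFin.bdd_of_encard fun n hn τ h3 h4 =>
    le_trans (le_iSup (fun τ : {τ : Fin n → ℕ // StrictMono τ ∧
        ∀ h : 0 < n, τ ⟨0, h⟩ = 0} => (Set.range fun m : ℤ => fun i : Fin n =>
          X (m + τ.1 i)).encard) ⟨τ, h3, h4⟩) (hp' n hn)
  rcases recR_or hr' with h | h
  · exact main_holds X h hb ha'
  · apply reflect
    apply main_holds _ h (bdd_neg hb)
    intro r hr0
    obtain ⟨m, hm⟩ := ha' (-r) (neg_ne_zero.mpr hr0)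
    refine ⟨-m, ?_⟩
    show X (-(-m + r)) ≠ X (- -m)
    rw [show -(-m + r) = m + -r by ring, neg_neg]
    exact hm

/-- single-sided sequences of low pattern complexity which are not ultimately periodic -/
theorem low_one {A : Type} (x : ℕ → A) (hr : Recurrent₁ x)
    (ha : ∀ q M : ℕ, 1 ≤ q → ∃ m, M ≤ m ∧ x (m + q) ≠ x m)
    (hp : ∀ n : ℕ, 1 ≤ n → patternComplexity₁ x n ≤ 2 * n) :
    ∃ (p q : A) (X : ℤ → Bool), p ≠ q ∧ (IntervalCoding X ∨ ArcToeplitz X) ∧
      ∀ m : ℕ, 1 ≤ m → x m = if X m = true then p else q := by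
  classical
  obtain ⟨m₀, hm₀, hne⟩ := ha 1 1 le_rfl
  have h1 := hp 1 le_rfl
  have h2 : (Set.range fun m : {m : ℕ // 1 ≤ m} => fun _ : Fin 1 => x m).encard = 2 := by
    apply range_two (x := fun m : {m : ℕ // 1 ≤ m} => x m) (a := ⟨m₀ + 1, by omega⟩)
      (b := ⟨m₀, hm₀⟩) hne
    refine le_trans ?_ (by simpa using h1)
    unfold patternComplexity₁
    refine le_trans ?_ (le_iSup (fun τ : {τ : Fin 1 → ℕ // StrictMono τ ∧
      ∀ h : 0 < 1, τ ⟨0, h⟩ = 0} => (Set.range fun m : {m : ℕ // 1 ≤ m} =>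
        fun i : Fin 1 => x (m + τ.1 i)).encard)
        ⟨fun _ => 0, Subsingleton.strictMono _, fun _ => rfl⟩)
    simp
  obtain ⟨p, q, hpq, hx⟩ := two_letters h2
  have hX : ∀ n, 1 ≤ n → x n = if (fun m : ℕ => decide (x m = p)) n = true then p else q := by
    intro n hn
    by_cases h : x n = p
    · simp [h]
    · rcases hx ⟨n, hn⟩ with h3 | h3
      · exact absurd h3 h
      · simp only at h3
        simp [h3, hpq.symm]
  set X : ℕ → Bool := fun m => decide (x m = p) with hXdef
  have hr' : Recurrent₁ X := (rec_one_iff hpq hX).mp hr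
  have hp' : ∀ n : ℕ, 1 ≤ n → patternComplexity₁ X n ≤ 2 * n := fun n hn => by
    rw [← pc_one_eq hpq hX]; exact hp n hn
  obtain ⟨Y, hXY, hG⟩ := exists_ext X hr'
  refine ⟨p, q, Y, hpq, ?_, fun m hm => by rw [← hXY m hm]; exact hX m hm⟩
  have hval : ∀ m : ℕ, 1 ≤ m → x m = if Y m = true then p else q := fun m hm => by
    rw [← hXY m hm]; exact hX m hm
  apply main_holds Y (ext_recR hr' hXY hG) (ext_bdd hXY hG fun n hn τ h3 h4 => ?_)
  · intro r hr0
    obtain ⟨m, hm1, hm⟩ := ha r.natAbs 1 (Int.natAbs_pos.mpr hr0)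
    have hne' : Y ((m : ℤ) + r.natAbs) ≠ Y m := by
      intro h
      apply hm
      rw [hval (m + r.natAbs) (by omega), hval m hm1]
      push_cast
      push_cast at h
      rw [h]
    rcases le_total 0 r with h | h
    · refine ⟨m, ?_⟩
      rw [Int.natAbs_of_nonneg h] at hne'
      exact hne'
    · refine ⟨(m : ℤ) + r.natAbs, ?_⟩
      rw [Int.ofNat_natAbs_of_nonpos h] at hne' ⊢
      rw [show (m : ℤ) + -r + r = m by ring]
      exact hne'.symm
  · have e : (fun m : {m : ℕ // 1 ≤ m} => fun i : Fin n => X (m + τ i)) =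
        fun m : {m : ℕ // 1 ≤ m} => fun i : Fin n => Y (((m : ℕ) : ℤ) + τ i) := by
      ext m i
      rw [hXY _ (m.2.trans (Nat.le_add_right _ _))]
      push_cast
      rfl
    rw [← e]
    exact le_trans (le_iSup (fun τ : {τ : Fin n → ℕ // StrictMono τ ∧
        ∀ h : 0 < n, τ ⟨0, h⟩ = 0} => (Set.range fun m : {m : ℕ // 1 ≤ m} => fun i : Fin n =>
          X (m + τ.1 i)).encard) ⟨τ, h3, h4⟩) (hp' n hn)

/-- double-sided pattern Sturmian sequences have no period -/
theorem aper_two' {A : Type} (x : ℤ → A) (h : ∃ (p q : A) (X : ℤ → Bool), p ≠ q ∧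
    (IntervalCoding X ∨ ArcToeplitz X) ∧ ∀ m : ℤ, x m = if X m = true then p else q)
    (r : ℤ) (hr : r ≠ 0) : ∃ m, x (m + r) ≠ x m := by
  obtain ⟨p, q, X, hpq, hX, hx⟩ := h
  obtain ⟨m, hm⟩ := aper_two (pc_two hX) r hr
  refine ⟨m, fun h => hm ?_⟩
  rw [hx, hx] at h
  exact lett_inj hpq h

/-- single-sided pattern Sturmian sequences are not ultimately periodic -/
theorem aper_one' {A : Type} (x : ℕ → A) (h : ∃ (p q : A) (X : ℤ → Bool), p ≠ q ∧
    (IntervalCoding X ∨ ArcToeplitz X) ∧ ∀ m : ℕ, 1 ≤ m → x m = if X m = true then p else q)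
    (r M : ℕ) (hr : 1 ≤ r) : ∃ m, M ≤ m ∧ x (m + r) ≠ x m := by
  obtain ⟨p, q, X, hpq, hX, hx⟩ := h
  obtain ⟨m, hm⟩ := aper_two (pc_two hX) r (by omega)
  obtain ⟨m', h1, h2⟩ := class_recR hX {0, (r : ℤ)} m M
  have h3 := h2 0 (by simp)
  have h4 := h2 r (by simp)
  rw [add_zero, add_zero] at h3
  refine ⟨m'.toNat, by omega, fun h => hm ?_⟩
  rw [hx _ (by omega), hx _ (by omega)] at h
  have h5 := lett_inj hpq h
  push_cast at h5
  rw [Int.toNat_of_nonneg (by omega)] at h5
  rw [← h3, ← h4]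
  exact h5

/-- **Classification of the pattern Sturmian sequences.**
(1) A double-sided sequence is recurrent and pattern Sturmian if and only if it has exactly two
letters `p ≠ q` and is, with `1` for `p` and `0` for `q`, the coding of an irrational rotation by an
interval or an arc-Toeplitz sequence. For recurrent double-sided sequences, pattern Sturmian means
the same as having no period and satisfying `p^*(n) ≤ 2 n` for all `n`.
(2) A single-sided sequence is recurrent and pattern Sturmian if and only if it is the right half of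
one of the sequences in (1). For recurrent single-sided sequences, pattern Sturmian means the same
as not being ultimately periodic and satisfying `p^*(n) ≤ 2 n` for all `n`. -/
theorem result :
    (∀ {A : Type} (x : ℤ → A),
      ((Recurrent x ∧ PatternSturmian x) ↔
        ∃ (p q : A) (X : ℤ → Bool), p ≠ q ∧ (IntervalCoding X ∨ ArcToeplitz X) ∧
          ∀ m : ℤ, x m = if X m = true then p else q) ∧
      (Recurrent x → (PatternSturmian x ↔
        (∀ r : ℤ, r ≠ 0 → ∃ m, x (m + r) ≠ x m) ∧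
          ∀ n : ℕ, 1 ≤ n → patternComplexity x n ≤ 2 * n))) ∧
    (∀ {A : Type} (x : ℕ → A),
      ((Recurrent₁ x ∧ PatternSturmian₁ x) ↔
        ∃ (p q : A) (X : ℤ → Bool), p ≠ q ∧ (IntervalCoding X ∨ ArcToeplitz X) ∧
          ∀ m : ℕ, 1 ≤ m → x m = if X m = true then p else q) ∧
      (Recurrent₁ x → (PatternSturmian₁ x ↔
        (∀ r M : ℕ, 1 ≤ r → ∃ m, M ≤ m ∧ x (m + r) ≠ x m) ∧
          ∀ n : ℕ, 1 ≤ n → patternComplexity₁ x n ≤ 2 * n))) := by
  have h0 := full_result main_holds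
  refine ⟨fun {A} x => ⟨h0.1 x, fun hr => ⟨fun h => ⟨?_, fun n hn => (h n hn).le⟩,
    fun h => ((h0.1 x).mpr (low_two x hr h.1 h.2)).2⟩⟩,
    fun {A} x => ⟨h0.2 x, fun hr => ⟨fun h => ⟨?_, fun n hn => (h n hn).le⟩,
    fun h => ((h0.2 x).mpr (low_one x hr h.1 h.2)).2⟩⟩⟩
  · exact aper_two' x ((h0.1 x).mp ⟨hr, h⟩)
  · exact aper_one' x ((h0.2 x).mp ⟨hr, h⟩)

end Pool.Agent.Results.MP_2825c1_co.Classification
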